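import Mathlib
import Pool.Agent.H148R3.HR6

/-!
# An equivalent `s`-norm on `L_p[0,1]` for which the Haar system is 1-greedy

`leb`, `haar` and `IsExpansion` are in `Pool/Agent/H148R3/OGDefs.lean`.
-/

set_option autoImplicit false

open MeasureTheory
open scoped ENNReal

namespace Pool.Agent.Results.MP_877d49_an.SNorm

open Pool.Agent.H148R3.OG

variable (𝕜 : Type*) [RCLike 𝕜] {X : Type*} [NormedAddCommGroup X] [NormedSpace 𝕜 X]

/-- `N` is an `s`-norm on the normed space `X` equivalent to its norm. -/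
structure IsEquivSNorm (s : ℝ) (N : X → ℝ) : Prop where
  nonneg : ∀ f, 0 ≤ N f
  eq_zero_iff : ∀ f, N f = 0 ↔ f = 0
  smul : ∀ (t : 𝕜) f, N (t • f) = ‖t‖ * N f
  add_le : ∀ f g, N (f + g) ^ s ≤ N f ^ s + N g ^ s
  equiv : ∃ c C : ℝ, 0 < c ∧ 0 < C ∧ ∀ f, c * ‖f‖ ≤ N f ∧ N f ≤ C * ‖f‖

/-- The system `h` is a `1`-greedy basis of `X` with respect to `N`: every `f` has exactly one
expansion `f = ∑ a_n h_n`, and `N (f - G_A f) ≤ N (f - g)` for every greedy set `A` of `f` and every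
combination `g` of at most `|A|` elements of the system. -/
structure IsOneGreedy (h : ℕ → X) (N : X → ℝ) : Prop where
  expansion : ∀ f : X, ∃! a : ℕ → 𝕜, IsExpansion h a f
  greedy : ∀ (f : X) (a : ℕ → 𝕜), IsExpansion h a f → ∀ A : Finset ℕ, IsGreedySet a A →
    ∀ (B : Finset ℕ) (b : ℕ → 𝕜), B.card ≤ A.card →
      N (f - ∑ n ∈ A, a n • h n) ≤ N (f - ∑ n ∈ B, b n • h n)

/-- For every `1 < p < ∞` and every `0 < s < 1` (and real or complex scalars) there is an `s`-norm on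
`L_p[0,1]`, equivalent to the usual norm, for which the Haar system is `1`-greedy. -/
theorem result (𝕜 : Type*) [RCLike 𝕜] (p : ℝ≥0∞) [Fact (1 ≤ p)] (hp : 1 < p) (hp' : p ≠ ∞)
    (s : ℝ) (hs : 0 < s) (hs' : s < 1) :
    ∃ N : Lp 𝕜 p leb → ℝ, IsEquivSNorm 𝕜 s N ∧ IsOneGreedy 𝕜 (haar 𝕜 p) N := by
  obtain ⟨q, F⟩ := Pool.Agent.H148R3.HR.facts (𝕜 := 𝕜) hp hp'
  obtain ⟨N, hN, hgr⟩ := Pool.Agent.H148R3.HR.main_norm F
  obtain ⟨c, C, hc, hC, h⟩ := hN.equiv
  have h0 : ∀ f, 0 ≤ N f := fun f => (mul_nonneg hc.le (norm_nonneg f)).trans (h f).1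
  refine ⟨N, ⟨h0, fun f => ⟨fun hf => ?_, fun hf => ?_⟩, hN.smul, fun f g => ?_, hN.equiv⟩,
    ⟨fun f => Pool.Agent.H148R3.HR.basis hp hp' f, hgr⟩⟩
  · have h1 := (h f).1
    rw [hf] at h1
    have h2 : ‖f‖ ≤ 0 := by
      by_contra hcon
      have := mul_pos hc (not_le.mp hcon)
      linarith
    exact norm_le_zero_iff.mp h2
  · have h1 := (h f).2
    rw [hf, norm_zero, mul_zero] at h1
    rw [hf]
    exact le_antisymm h1 (h0 0)
  · exact (Real.rpow_le_rpow (h0 _) (hN.add_le f g) hs.le).trans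
      (Real.rpow_add_le_add_rpow (h0 f) (h0 g) hs.le hs'.le)

end Pool.Agent.Results.MP_877d49_an.SNorm
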